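import Pool.Agent.LeoG.AlgStmts
import Pool.Agent.Helper75_LeoK.Leor

/-!
# Module LRG: relative Leopoldt conjecture at 3

Port of `Helper75_LeoK/Leor, LeorA`, without the hypothesis on local cube roots of unity.
-/

set_option autoImplicit false

open NumberField IsDedekindDomain WithZero Module Filter Topology
open Pool.Agent.Helper85_Leo Pool.Agent.Leo3 Pool.Agent.Leo3.H93 Pool.Agent.LeoK
open Pool.Agent.LeoK.H59 Pool.Agent.LeoK.H75

namespace Pool.Agent.LeoG.H28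

/-- roots of elements close to `1`, with the distance from `1` -/
theorem crt_iter' (hcrt : CrtStmt) {L : Type} [Field L] (φ : L →+* Om) (n : ℕ) :
    ∀ w : Om, InLoc φ w → ‖w - 1‖ ≤ (3 : ℝ)⁻¹ ^ (n + 2) →
      ∃ t : Om, InLoc φ t ∧ t ^ (3 ^ n) = w ∧ ‖t - 1‖ ≤ (3 : ℝ)⁻¹ ^ 2 := by
  induction n with
  | zero =>
    intro w hw hn
    exact ⟨w, hw, by simp, by simpa using hn⟩
  | succ n ih =>
    intro w hw hn
    obtain ⟨w', h1, h2, h3⟩ := hcrt L φ w hw (n + 1 + 2) (by omega) hn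
    obtain ⟨t, h4, h5, h6⟩ := ih w' h1 (by
      have : n + 1 + 2 - 1 = n + 2 := by omega
      rwa [this] at h3)
    refine ⟨t, h4, ?_, h6⟩
    rw [pow_succ, pow_mul, h5, h2]

/-- a cube root of unity close to `1` -/
lemma cube_one_close {x : Om} (h3 : x ^ 3 = 1) (h : ‖x - 1‖ ≤ (3 : ℝ)⁻¹ ^ 2) : x = 1 := by
  by_contra hne
  have h0 : x - 1 ≠ 0 := sub_ne_zero.2 hne
  have h1 : x ^ 2 + x + 1 = 0 := by
    have h2 : (x - 1) * (x ^ 2 + x + 1) = 0 := by linear_combination h3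
    exact (mul_eq_zero.1 h2).resolve_left h0
  have hn : ‖x‖ = 1 := by
    have h4 : ‖x‖ ^ 3 = 1 := by rw [← norm_pow, h3, norm_one]
    exact (pow_eq_one_iff_of_nonneg (norm_nonneg x) (by norm_num)).1 h4
  have h5 : (x - 1) * (x - 1) = -3 * x := by linear_combination h1
  have h6 : ‖x - 1‖ * ‖x - 1‖ = 3⁻¹ := by
    rw [← norm_mul, h5, norm_mul, hn, norm_neg, Pool.Agent.Leo3.H65.norm_three, mul_one]
  have h7 : ‖x - 1‖ * ‖x - 1‖ ≤ (3 : ℝ)⁻¹ ^ 2 * (3 : ℝ)⁻¹ ^ 2 :=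
    mul_le_mul h h (norm_nonneg _) (by positivity)
  rw [h6] at h7
  norm_num at h7

lemma norm_one_of_close {x : Om} (h : ‖x - 1‖ ≤ (3 : ℝ)⁻¹ ^ 2) : ‖x‖ = 1 := by
  have h1 : ‖(x - 1) + 1‖ = ‖(1 : Om)‖ := Pool.Agent.Leo3.H65.norm_add_of_lt (by
    rw [norm_one]
    exact lt_of_le_of_lt h (by norm_num))
  rw [sub_add_cancel, norm_one] at h1
  exact h1

lemma mul_close {x y : Om} (hx : ‖x - 1‖ ≤ (3 : ℝ)⁻¹ ^ 2) (hy : ‖y - 1‖ ≤ (3 : ℝ)⁻¹ ^ 2) :
    ‖x * y - 1‖ ≤ (3 : ℝ)⁻¹ ^ 2 := by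
  have h1 : x * y - 1 = x * (y - 1) + (x - 1) := by ring
  rw [h1]
  refine ((PadicAlgCl.isNonarchimedean 3) _ _).trans (max_le ?_ hx)
  rw [norm_mul, norm_one_of_close hx, one_mul]
  exact hy

lemma pow_close {x : Om} (hx : ‖x - 1‖ ≤ (3 : ℝ)⁻¹ ^ 2) (n : ℕ) :
    ‖x ^ n - 1‖ ≤ (3 : ℝ)⁻¹ ^ 2 := by
  induction n with
  | zero => rw [pow_zero, sub_self, norm_zero]; positivity
  | succ n ih => rw [pow_succ]; exact mul_close ih hx

/-- a root of unity of order a power of 3 close to `1` -/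
lemma root_one_close {x : Om} (n : ℕ) (h3 : x ^ (3 ^ n) = 1) (h : ‖x - 1‖ ≤ (3 : ℝ)⁻¹ ^ 2) :
    x = 1 := by
  induction n with
  | zero => simpa using h3
  | succ n ih =>
    apply ih
    apply cube_one_close _ (pow_close h _)
    rw [← pow_mul, ← pow_succ]
    exact h3

/-- an automorphism which fixes `k` and moves `r` acts on `K` as the conjugation -/
lemma act {k K : Type} [Field k] [Field K] [Algebra k K] {r : K}
    (hspan : ∀ z : K, ∃ a b : k, z = algebraMap k K a + algebraMap k K b * r)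
    (τ : K ≃ₐ[k] K) (hτ : τ r = -r) (φ : K →+* Om) (ρ : Om ≃ₐ[ℚ_[3]] Om)
    (h1 : FixF (φ.comp (algebraMap k K)) ρ) (h2 : ρ (φ r) = -φ r) (x : K) :
    ρ (φ x) = φ (τ x) := by
  obtain ⟨a, b, rfl⟩ := hspan x
  have ha : ρ (φ (algebraMap k K a)) = φ (algebraMap k K a) := h1 a
  have hb : ρ (φ (algebraMap k K b)) = φ (algebraMap k K b) := h1 b
  rw [map_add, map_mul, map_add, map_mul, h2, ha, hb, map_add, map_mul, τ.commutes, τ.commutes,
    hτ, map_add, map_mul, map_neg]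

/-- extraction of a `3^N`-th root of a unit of norm 1 -/
theorem root_unit_rel' (hmum : MumStmt) {k K : Type} [Field k] [NumberField k] [Field K]
    [NumberField K] [Algebra k K] {m : k} {r : K} (hW : WMinus k K) [IsGalois k K]
    (hK : finrank k K = 2) (hr : r ^ 2 = algebraMap k K (3 * m)) (hm : ∀ x : k, x ^ 2 ≠ 3 * m)
    (h3m : Three k m)
    (hspan : ∀ z : K, ∃ a b : k, z = algebraMap k K a + algebraMap k K b * r)
    (τ : K ≃ₐ[k] K) (hτ : τ ≠ 1) (hτr : τ r = -r) (hττ : ∀ u : (𝓞 K)ˣ, cj τ (cj τ u) = u)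
    (N : ℕ) :
    ∀ u : (𝓞 K)ˣ, u * cj τ u = 1 →
      (∀ φ : K →+* Om, ∃ t, InLoc φ t ∧ t ^ (3 ^ N) = φ ((u : 𝓞 K) : K) ∧
        ∀ ρ : Om ≃ₐ[ℚ_[3]] Om, FixF (φ.comp (algebraMap k K)) ρ → ρ (φ r) = -φ r →
          t * ρ t = 1) →
      ∃ g : (𝓞 K)ˣ, g ^ (3 ^ N) = u := by
  have : FiniteDimensional k K := Module.finite_of_finrank_pos (by omega)
  induction N with
  | zero => intro u _ _; exact ⟨u, by simp⟩
  | succ N ih =>
    intro u hu1 hu
    have hloc : LocCube ((u : 𝓞 K) : K) := by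
      intro φ
      obtain ⟨t, h1, h2, _⟩ := hu φ
      refine ⟨t ^ (3 ^ N), InLoc.pow h1 _, ?_⟩
      rw [← pow_mul, ← pow_succ, h2]
    have hn : Algebra.norm k ((u : 𝓞 K) : K) = 1 ^ 3 := by
      apply (algebraMap k K).injective
      rw [norm_quad hK τ hτ, one_pow, map_one, ← cj_coe]
      have h1 := congrArg (fun x : (𝓞 K)ˣ => ((x : 𝓞 K) : K)) hu1
      simpa using h1
    obtain ⟨t, ht⟩ := hW ((u : 𝓞 K) : K) (unit_ne u) ⟨1, hn⟩ (valCube3_unit u) hloc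
    obtain ⟨g', hg', hg3⟩ := unit_cube u t ht
    -- the norm of `g'` is a cube root of unity; correct it
    obtain ⟨x, hx⟩ : ∃ x : (𝓞 K)ˣ, x = g' * cj τ g' := ⟨_, rfl⟩
    have hx3 : x ^ 3 = 1 := by rw [hx, mul_pow, ← map_pow, hg3, hu1]
    have hcx : cj τ x = x := by rw [hx, map_mul, hττ, mul_comm]
    obtain ⟨g2, hg2⟩ : ∃ g2 : (𝓞 K)ˣ, g2 = g' * x := ⟨_, rfl⟩
    have hg23 : g2 ^ 3 = u := by rw [hg2, mul_pow, hx3, mul_one, hg3]
    have hg21 : g2 * cj τ g2 = 1 := by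
      rw [hg2, map_mul, hcx]
      calc g' * x * (cj τ g' * x) = (g' * cj τ g') * (x * x) := by
            rw [mul_mul_mul_comm]
        _ = x ^ 3 := by rw [← hx, pow_succ, pow_two, mul_comm]
        _ = 1 := hx3
    obtain ⟨g, hg⟩ := ih g2 hg21 (by
      intro φ
      obtain ⟨s, h1, h2, h3⟩ := hu φ
      refine ⟨s, h1, ?_, h3⟩
      have hg0 : φ ((g2 : 𝓞 K) : K) ≠ 0 := (_root_.map_ne_zero φ).2 (unit_ne g2)
      have h4 : (s ^ (3 ^ N)) ^ 3 = (φ ((g2 : 𝓞 K) : K)) ^ 3 := by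
        rw [← pow_mul, ← pow_succ, h2, ← map_pow]
        have h5 := congrArg (fun x : (𝓞 K)ˣ => ((x : 𝓞 K) : K)) hg23
        simp only [Units.val_pow_eq_pow_val, map_pow] at h5
        rw [h5]
      have hs0 : s ^ (3 ^ N) ≠ 0 := by
        intro h0
        rw [h0] at h4
        have h5 : (φ ((g2 : 𝓞 K) : K)) ^ 3 = 0 := by rw [← h4]; simp
        exact hg0 (pow_eq_zero_iff (by norm_num) |>.1 h5)
      obtain ⟨ζ, hζ⟩ : ∃ ζ : Om, ζ = φ ((g2 : 𝓞 K) : K) * (s ^ (3 ^ N))⁻¹ := ⟨_, rfl⟩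
      have hζl : InLoc φ ζ := by
        rw [hζ]; exact InLoc.mul (InLoc.map _) (InLoc.inv (InLoc.pow h1 _))
      have hζ3 : ζ ^ 3 = 1 := by
        rw [hζ, mul_pow, inv_pow, h4, mul_inv_cancel₀ (pow_ne_zero _ hg0)]
      have hζ1 : ζ = 1 := by
        by_contra hne
        obtain ⟨m1, ρ, m2, m3⟩ := hmum k K m r hK hr hm h3m φ ζ hζl hζ3 hne
        have h5 : ρ ζ = ζ := m1 ρ m2
        have h6 : ζ * ρ ζ = 1 := by
          rw [hζ, map_mul, map_inv₀, map_pow, act hspan τ hτr φ ρ m2 m3]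
          have h7 : φ ((g2 : 𝓞 K) : K) * φ (τ ((g2 : 𝓞 K) : K)) = 1 := by
            rw [← map_mul, ← cj_coe]
            have h8 := congrArg (fun x : (𝓞 K)ˣ => ((x : 𝓞 K) : K)) hg21
            have h9 : ((g2 : 𝓞 K) : K) * ((cj τ g2 : 𝓞 K) : K) = 1 := by simpa using h8
            rw [h9, map_one]
          have h10 : s ^ (3 ^ N) * (ρ s) ^ (3 ^ N) = 1 := by
            rw [← mul_pow, h3 ρ m2 m3, one_pow]
          calc φ ((g2 : 𝓞 K) : K) * (s ^ (3 ^ N))⁻¹ *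
                (φ (τ ((g2 : 𝓞 K) : K)) * ((ρ s) ^ (3 ^ N))⁻¹)
              = (φ ((g2 : 𝓞 K) : K) * φ (τ ((g2 : 𝓞 K) : K))) *
                (s ^ (3 ^ N) * (ρ s) ^ (3 ^ N))⁻¹ := by rw [mul_inv]; ring
            _ = 1 := by rw [h7, h10]; simp
        rw [h5] at h6
        apply hne
        have h7 : ζ ^ 3 = ζ := by
          calc ζ ^ 3 = (ζ * ζ) * ζ := by ring
            _ = ζ := by rw [h6, one_mul]
        rw [← h7, hζ3]
      rw [hζ1] at hζ
      field_simp at hζ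
      exact hζ)
    refine ⟨g, ?_⟩
    rw [pow_succ, pow_mul, hg, hg23]

/-- (2): the relation for units of norm 1 -/
theorem rel_minus' (hmum : MumStmt) (hcrt : CrtStmt) {k K : Type} [Field k] [NumberField k]
    [Field K] [NumberField K] [Algebra k K] {m₀ : k} {r : K} (hW : WMinus k K) [IsGalois k K]
    (hK : finrank k K = 2) (hr : r ^ 2 = algebraMap k K (3 * m₀)) (hm₀ : ∀ x : k, x ^ 2 ≠ 3 * m₀)
    (h3m : Three k m₀)
    (hspan : ∀ z : K, ∃ a b : k, z = algebraMap k K a + algebraMap k K b * r)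
    (τ : K ≃ₐ[k] K) (hτ : τ ≠ 1) (hτr : τ r = -r) (hττ : ∀ u : (𝓞 K)ˣ, cj τ (cj τ u) = u)
    {n : ℕ} (ε : Fin n → (𝓞 K)ˣ) (hε : ∀ i, ε i * cj τ (ε i) = 1)
    (a : Fin n → PadicInt 3) (m : ℕ → Fin n → ℤ)
    (hm : ∀ i, Tendsto (fun k => ((m k i : ℤ) : PadicInt 3)) atTop (𝓝 (a i)))
    (hdiv : ∀ N : ℕ, ∀ᶠ k in atTop,
        ((3 : ℕ) : 𝓞 K) ^ N ∣ (((∏ i, ε i ^ m k i : (𝓞 K)ˣ) : 𝓞 K) - 1))
    (i : Fin (Units.rank K)) : ∑ j, ((crd (ε j) i : ℤ) : PadicInt 3) * a j = 0 := by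
  have hnorm1 : ∀ c : Fin n → ℤ, (∏ i, ε i ^ c i) * cj τ (∏ i, ε i ^ c i) = 1 := by
    intro c
    rw [map_prod, ← Finset.prod_mul_distrib]
    refine Finset.prod_eq_one fun i _ => ?_
    rw [map_zpow, ← mul_zpow, hε, one_zpow]
  have hnorm2 : ∀ (φ : K →+* Om) (c : Fin n → ℤ),
      φ (((∏ i, ε i ^ c i : (𝓞 K)ˣ) : 𝓞 K) : K) *
        φ (τ (((∏ i, ε i ^ c i : (𝓞 K)ˣ) : 𝓞 K) : K)) = 1 := by
    intro φ c
    rw [← map_mul, ← cj_coe]
    have h8 := congrArg (fun x : (𝓞 K)ˣ => ((x : 𝓞 K) : K)) (hnorm1 c)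
    have h9 : (((∏ i, ε i ^ c i : (𝓞 K)ˣ) : 𝓞 K) : K) *
        ((cj τ (∏ i, ε i ^ c i) : 𝓞 K) : K) = 1 := by simpa using h8
    rw [h9, map_one]
  have hKK : ∀ N : ℕ, ∃ K₀ : ℕ, ∀ k, K₀ ≤ k → ∀ i,
      ‖((m k i : ℤ) : PadicInt 3) - a i‖ ≤ (3 : ℝ) ^ (-(N : ℤ)) := by
    intro N
    have h1 : ∀ i, ∀ᶠ k in atTop, ‖((m k i : ℤ) : PadicInt 3) - a i‖ ≤ (3 : ℝ) ^ (-(N : ℤ)) := by
      intro i
      have h2 := (hm i).sub_const (a i)
      rw [sub_self] at h2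
      have h3 := h2.norm
      rw [norm_zero] at h3
      exact (h3.eventually (gt_mem_nhds (by positivity : (0 : ℝ) < (3 : ℝ) ^ (-(N : ℤ))))).mono
        (fun k hk => le_of_lt hk)
    have h4 := eventually_all.2 h1
    exact eventually_atTop.1 h4
  choose K₀ hK₀ using hKK
  have hroot : ∀ N : ℕ, ∃ g : (𝓞 K)ˣ, g ^ (3 ^ N) = ∏ i, ε i ^ m (K₀ N) i := by
    intro N
    refine root_unit_rel' hmum hW hK hr hm₀ h3m hspan τ hτ hτr hττ N _ (hnorm1 _) ?_
    intro φ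
    obtain ⟨k', hk1, hk2⟩ := ((hdiv (N + 2)).and (eventually_ge_atTop (K₀ N))).exists
    have hc : ∀ i, ∃ c : ℤ, m k' i = m (K₀ N) i + 3 ^ N * c := by
      intro i
      have h1 := hK₀ N k' hk2 i
      have h2 := hK₀ N (K₀ N) le_rfl i
      have h3 : ‖((m k' i - m (K₀ N) i : ℤ) : PadicInt 3)‖ ≤ (3 : ℝ) ^ (-(N : ℤ)) := by
        have e : ((m k' i - m (K₀ N) i : ℤ) : PadicInt 3)
            = (((m k' i : ℤ) : PadicInt 3) - a i) - (((m (K₀ N) i : ℤ) : PadicInt 3) - a i) := by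
          push_cast; ring
        rw [e]
        exact (nonarch_sub _ _).trans (max_le h1 h2)
      have h4 := (PadicInt.norm_int_le_pow_iff_dvd (p := 3) (k := m k' i - m (K₀ N) i) (n := N)).1
        (by simpa using h3)
      obtain ⟨c, hc⟩ := h4
      refine ⟨c, ?_⟩
      have : m k' i - m (K₀ N) i = 3 ^ N * c := by simpa using hc
      linarith
    choose c hc using hc
    have hprod : ∏ i, ε i ^ m k' i = (∏ i, ε i ^ m (K₀ N) i) * (∏ i, ε i ^ c i) ^ (3 ^ N) := by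
      rw [← Finset.prod_pow, ← Finset.prod_mul_distrib]
      refine Finset.prod_congr rfl fun i _ => ?_
      rw [hc i, zpow_add, ← zpow_natCast (ε i ^ c i), ← zpow_mul]
      congr 2
      push_cast
      ring
    have hnorm := norm_sub_one_le φ _ _ hk1
    obtain ⟨t, ht1, ht2, ht3⟩ := crt_iter' hcrt φ N _ (InLoc.map _) hnorm
    refine ⟨t * (φ (((∏ i, ε i ^ c i : (𝓞 K)ˣ) : 𝓞 K) : K))⁻¹,
      InLoc.mul ht1 (InLoc.inv (InLoc.map _)), ?_, ?_⟩
    · rw [mul_pow, ht2, hprod]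
      have h0 : φ (((∏ i, ε i ^ c i : (𝓞 K)ˣ) : 𝓞 K) : K) ≠ 0 := by
        rw [_root_.map_ne_zero]
        exact unit_ne _
      have e1 : φ ((((∏ i, ε i ^ m (K₀ N) i) * (∏ i, ε i ^ c i) ^ (3 ^ N) : (𝓞 K)ˣ) : 𝓞 K) : K)
          = φ (((∏ i, ε i ^ m (K₀ N) i : (𝓞 K)ˣ) : 𝓞 K) : K) *
            φ (((∏ i, ε i ^ c i : (𝓞 K)ˣ) : 𝓞 K) : K) ^ (3 ^ N) := by
        rw [← map_pow, ← map_mul]
        rfl
      rw [e1, inv_pow, mul_assoc, mul_inv_cancel₀ (pow_ne_zero _ h0), mul_one]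
    · intro ρ hρ1 hρ2
      have ha : ∀ x : K, ρ (φ x) = φ (τ x) := act hspan τ hτr φ ρ hρ1 hρ2
      have h1 : t * ρ t = 1 := by
        apply root_one_close N
        · rw [mul_pow, ← map_pow, ht2, ha]
          exact hnorm2 φ (m k')
        · apply mul_close ht3
          have h2 : ρ t - 1 = ρ (t - 1) := by rw [map_sub, map_one]
          rw [h2, Pool.Agent.Leo3.H65.norm_aut]
          exact ht3
      have h2 := hnorm2 φ c
      rw [map_mul, map_inv₀, ha]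
      calc t * (φ (((∏ i, ε i ^ c i : (𝓞 K)ˣ) : 𝓞 K) : K))⁻¹ *
            (ρ t * (φ (τ (((∏ i, ε i ^ c i : (𝓞 K)ˣ) : 𝓞 K) : K)))⁻¹)
          = (t * ρ t) * (φ (((∏ i, ε i ^ c i : (𝓞 K)ˣ) : 𝓞 K) : K) *
            φ (τ (((∏ i, ε i ^ c i : (𝓞 K)ˣ) : 𝓞 K) : K)))⁻¹ := by rw [mul_inv]; ring
        _ = 1 := by rw [h1, h2, inv_one, mul_one]
  exact crd_lim ε a (fun N => m (K₀ N)) (fun N i => hK₀ N (K₀ N) le_rfl i) hroot i

/-- LRG, with the local cube roots as hypothesis -/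
theorem lrg_of (hmum : MumStmt) (hcrt : CrtStmt) : LrgStmt := by
  intro k K _ _ _ _ _ m₀ r hK hr hm₀ h3m hW hLk n ε _ hind a m hm hdiv
  have : FiniteDimensional k K := Module.finite_of_finrank_pos (by omega)
  have : Algebra.IsQuadraticExtension k K := ⟨hK⟩
  obtain ⟨τ, hτ⟩ : ∃ τ : K ≃ₐ[k] K, τ ≠ 1 := by
    by_contra hno
    push Not at hno
    have h1 : Nat.card (K ≃ₐ[k] K) = 2 := by rw [IsGalois.card_aut_eq_finrank, hK]
    have h2 : Subsingleton (K ≃ₐ[k] K) := ⟨fun x y => by rw [hno x, hno y]⟩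
    rw [Nat.card_unique] at h1
    omega
  have hττ : ∀ u : (𝓞 K)ˣ, cj τ (cj τ u) = u := by
    intro u
    have h1 := inc_nrm (k := k) hK τ hτ u
    have h2 : cj τ (inc (K := K) (nrm (k := k) u)) = inc (K := K) (nrm (k := k) u) := by
      apply unit_ext
      rw [cj_coe, inc_coe, τ.commutes]
    rw [h1, map_mul] at h2
    have h3 : cj τ u * cj τ (cj τ u) = cj τ u * u := by rw [h2, mul_comm]
    exact mul_left_cancel h3
  have hrk : ∀ x : k, algebraMap k K x ≠ r := by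
    intro x hx
    apply hm₀ x
    apply (algebraMap k K).injective
    rw [map_pow, hx, hr]
  have hspan : ∀ z : K, ∃ a b : k, z = algebraMap k K a + algebraMap k K b * r :=
    fun z => quad_span hK hrk z
  have hτr : τ r = -r := by
    have h1 : (τ r) ^ 2 = r ^ 2 := by rw [← map_pow, hr, τ.commutes]
    rcases sq_eq_sq_iff_eq_or_eq_neg.1 h1 with h2 | h2
    · exfalso
      apply hτ
      ext z
      obtain ⟨a', b', rfl⟩ := hspan z
      rw [map_add, map_mul, τ.commutes, τ.commutes, h2]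
      rfl
    · exact h2
  -- the units of norm 1
  have hminus : ∀ i : Fin (Units.rank K),
      ∑ j, ((crd (ε j * (cj τ (ε j))⁻¹) i : ℤ) : PadicInt 3) * a j = 0 := by
    intro i
    refine rel_minus' hmum hcrt hW hK hr hm₀ h3m hspan τ hτ hτr hττ (fun j => ε j * (cj τ (ε j))⁻¹) ?_ a m hm ?_ i
    · intro j
      rw [map_mul, map_inv, hττ]
      group
    · intro N
      refine (hdiv N).mono fun l hl => ?_
      have h1 : ∏ j, (ε j * (cj τ (ε j))⁻¹) ^ m l j =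
          (∏ j, ε j ^ m l j) * (cj τ (∏ j, ε j ^ m l j))⁻¹ := by
        rw [map_prod, ← Finset.prod_inv_distrib, ← Finset.prod_mul_distrib]
        refine Finset.prod_congr rfl fun j _ => ?_
        rw [mul_zpow, inv_zpow, map_zpow]
      rw [h1]
      generalize (∏ j, ε j ^ m l j) = u at hl
      have h2 := dvd_conj τ N u hl
      have h3 : ((u * (cj τ u)⁻¹ : (𝓞 K)ˣ) : 𝓞 K) - 1 =
          (((u : 𝓞 K) - 1) - ((cj τ u : 𝓞 K) - 1)) * (((cj τ u)⁻¹ : (𝓞 K)ˣ) : 𝓞 K) := by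
        have h4 : (cj τ u : 𝓞 K) * (((cj τ u)⁻¹ : (𝓞 K)ˣ) : 𝓞 K) = 1 := Units.mul_inv _
        rw [Units.val_mul]
        linear_combination h4
      rw [h3]
      exact Dvd.dvd.mul_right (dvd_sub hl h2) _
  -- the norms
  have hbase : ∀ i : Fin (Units.rank k),
      ∑ j, ((crd (nrm (k := k) (ε j)) i : ℤ) : PadicInt 3) * a j = 0 := by
    intro i
    refine rel_base hLk (fun j => nrm (k := k) (ε j)) a m hm ?_ i
    intro N
    refine (hdiv N).mono fun l hl => ?_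
    have h1 : ∏ j, nrm (k := k) (ε j) ^ m l j = nrm (k := k) (∏ j, ε j ^ m l j) := by
      rw [map_prod]
      refine Finset.prod_congr rfl fun j _ => ?_
      rw [map_zpow]
    rw [h1]
    generalize (∏ j, ε j ^ m l j) = u at hl
    have h2 := dvd_conj τ N u hl
    apply dvd_down (K := K)
    have h3 := congrArg Units.val (inc_nrm (k := k) hK τ hτ u)
    have h4 : algebraMap (𝓞 k) (𝓞 K) ((nrm (k := k) u : 𝓞 k) - 1) =
        ((u : 𝓞 K) - 1) * (cj τ u : 𝓞 K) + ((cj τ u : 𝓞 K) - 1) := by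
      rw [map_sub, map_one]
      have h5 : algebraMap (𝓞 k) (𝓞 K) (nrm (k := k) u : 𝓞 k) = (u : 𝓞 K) * (cj τ u : 𝓞 K) := h3
      rw [h5]
      ring
    rw [h4]
    exact dvd_add (Dvd.dvd.mul_right hl _) h2
  have hplus : ∀ l : Fin (Units.rank K),
      ∑ j, ((crd (ε j * cj τ (ε j)) l : ℤ) : PadicInt 3) * a j = 0 := by
    intro l
    have h1 : ∀ j, ((crd (ε j * cj τ (ε j)) l : ℤ) : PadicInt 3) * a j =
        ∑ i, ((crd (inc (K := K) (Units.fundSystem k i)) l : ℤ) : PadicInt 3) *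
          (((crd (nrm (k := k) (ε j)) i : ℤ) : PadicInt 3) * a j) := by
      intro j
      rw [← inc_nrm (k := k) hK τ hτ (ε j), crd_inc, Int.cast_sum, Finset.sum_mul]
      refine Finset.sum_congr rfl fun i _ => ?_
      push_cast
      ring
    rw [Finset.sum_congr rfl fun j _ => h1 j, Finset.sum_comm]
    refine Finset.sum_eq_zero fun i _ => ?_
    rw [← Finset.mul_sum, hbase i, mul_zero]
  have hrel : ∀ i : Fin (Units.rank K), ∑ j, ((crd (ε j) i : ℤ) : PadicInt 3) * a j = 0 := by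
    intro i
    have h1 : ∀ j, 2 * (((crd (ε j) i : ℤ) : PadicInt 3) * a j) =
        ((crd (ε j * (cj τ (ε j))⁻¹) i : ℤ) : PadicInt 3) * a j +
        ((crd (ε j * cj τ (ε j)) i : ℤ) : PadicInt 3) * a j := by
      intro j
      have h2 : 2 * crd (ε j) i = crd (ε j * (cj τ (ε j))⁻¹) i + crd (ε j * cj τ (ε j)) i := by
        rw [← crd_mul]
        have h3 : ε j * (cj τ (ε j))⁻¹ * (ε j * cj τ (ε j)) = ε j * ε j := by
          rw [mul_comm (ε j) (cj τ (ε j)), ← mul_assoc, inv_mul_cancel_right]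
        rw [h3, crd_mul]
        ring
      have h4 : (2 : PadicInt 3) * ((crd (ε j) i : ℤ) : PadicInt 3) =
          ((crd (ε j * (cj τ (ε j))⁻¹) i : ℤ) : PadicInt 3) +
          ((crd (ε j * cj τ (ε j)) i : ℤ) : PadicInt 3) := by
        have := congrArg (Int.cast : ℤ → PadicInt 3) h2
        push_cast at this
        exact this
      rw [← mul_assoc, h4, add_mul]
    have h5 : (2 : PadicInt 3) * ∑ j, ((crd (ε j) i : ℤ) : PadicInt 3) * a j = 0 := by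
      rw [Finset.mul_sum, Finset.sum_congr rfl fun j _ => h1 j, Finset.sum_add_distrib,
        hminus i, hplus i, add_zero]
    exact (mul_eq_zero.1 h5).resolve_left two_ne_zero
  -- conclusion
  by_contra hne
  obtain ⟨j₀, hj₀⟩ := Function.ne_iff.1 hne
  obtain ⟨z, hz0, hz⟩ := exists_int_solution (V := ℚ_[3]) (fun j => ((a j : PadicInt 3) : ℚ_[3]))
    (fun j i => crd (ε j) i) (by
      intro i
      have h1 := congrArg (fun x : PadicInt 3 => (x : ℚ_[3])) (hrel i)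
      simp only [PadicInt.coe_zero] at h1
      rw [← h1, PadicInt.coe_sum]
      refine Finset.sum_congr rfl fun j _ => ?_
      rw [PadicInt.coe_mul, PadicInt.coe_intCast, Rat.smul_def, Rat.cast_intCast]
      ) j₀ (by
      intro h0
      apply hj₀
      exact Subtype.ext h0)
  obtain ⟨l, hl, hl1⟩ := crd_torsion (∏ j, ε j ^ z j) (by
    intro i
    rw [crd_prod, ← hz i]
    refine Finset.sum_congr rfl fun j _ => ?_
    ring)
  have h2 := hind (fun j => z j * l) (by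
    rw [← hl1, ← Finset.prod_pow]
    refine Finset.prod_congr rfl fun j _ => ?_
    rw [zpow_mul, zpow_natCast])
  have h3 := congrFun h2 j₀
  simp only [Pi.zero_apply, mul_eq_zero] at h3
  rcases h3 with h3 | h3
  · exact hz0 h3
  · omega

/-- LRG. -/
theorem lrg (hmum : MumStmt) : LrgStmt := lrg_of hmum Pool.Agent.Leo3.H65.crt

end Pool.Agent.LeoG.H28
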